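import Pool.Agent.P8H12.JN.Stm

set_option autoImplicit false

/-! Package M2. -/

namespace Pool.Agent.P8H12.JN

open MeasureTheory Filter Topology Finset

lemma abs_co_le {d : ℕ} (y : Fin d → ℤ) {B : ℝ} (hB : 0 ≤ B) (hd : 1 ≤ d)
    (h : ∀ i, |((y i : ℤ) : ℝ)| ≤ B) (i : Fin (d + 1)) : |((co y i : ℤ) : ℝ)| ≤ d * B := by
  have hd1 : (1 : ℝ) ≤ d := by exact_mod_cast hd
  refine Fin.lastCases ?_ (fun j => ?_) i
  · have e : co y (Fin.last d) = -∑ i, y i := by
      unfold co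
      exact Fin.snoc_last (α := fun _ => ℤ) _ _
    rw [e]
    push_cast
    rw [abs_neg]
    calc |∑ i, ((y i : ℤ) : ℝ)| ≤ ∑ i, |((y i : ℤ) : ℝ)| := abs_sum_le_sum_abs _ _
      _ ≤ ∑ _i : Fin d, B := sum_le_sum fun i _ => h i
      _ = d * B := by rw [sum_const, card_univ, Fintype.card_fin, nsmul_eq_mul]
  · have e : co y j.castSucc = y j := by
      unfold co
      exact Fin.snoc_castSucc (α := fun _ => ℤ) _ _ j
    rw [e]
    refine (h j).trans ?_
    nlinarith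

/-- M2 -/
theorem m2 (hT : S_TAIL) (hR : S_REP) : S_M2 := by
  classical
  intro d hd J t w ρ hD A hA ε hε
  have hd0 : (2 : ℝ) ≤ d := by exact_mod_cast hd
  obtain ⟨C, ν, hC, hν, hT1, hT2⟩ := hT d hd A hA
  obtain ⟨C', ν', hC', hν', hT1', -⟩ := hT d hd (2 * A) (by linarith)
  have hg : 0 < gam (d + 1) := by
    unfold gam
    push_cast
    apply div_pos <;> linarith
  -- choice of T₀
  have hlim : Tendsto (fun T : ℝ => C * T ^ (-(1 / 2) : ℝ) + C' * T ^ (-gam (d + 1))) atTop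
      (𝓝 (C * 0 + C' * 0)) :=
    ((tendsto_rpow_neg_atTop (by norm_num)).const_mul C).add
      ((tendsto_rpow_neg_atTop hg).const_mul C')
  rw [mul_zero, mul_zero, add_zero] at hlim
  obtain ⟨T₁, hT₁⟩ := eventually_atTop.1 (hlim.eventually (gt_mem_nhds (half_pos (half_pos hε))))
  refine ⟨max T₁ 1, le_max_right _ _, fun T hTT => ?_⟩
  have hTb := hT₁ T ((le_max_left _ _).trans hTT)
  have hT1'' : 1 ≤ T := (le_max_right _ _).trans hTT
  have hT0 : 0 < T := by linarith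
  obtain ⟨R, hRdef⟩ : ∃ R : ℝ, R = (d * T) ^ (d + 1) * T := ⟨_, rfl⟩
  have hdT : 1 ≤ (d : ℝ) * T := by nlinarith
  have hR1 : 1 ≤ R := by
    rw [hRdef]
    have : (1 : ℝ) ≤ (d * T) ^ (d + 1) := one_le_pow₀ hdT
    nlinarith
  have hRT : T ≤ R := by
    rw [hRdef]
    have : (1 : ℝ) ≤ (d * T) ^ (d + 1) := one_le_pow₀ hdT
    nlinarith
  obtain ⟨F, hF⟩ := hD.tight R hR1 (ε / 4) (by positivity)
  -- the error term
  have hlim2 : Tendsto (fun X : ℝ => C * X ^ (-ν)) atTop (𝓝 (C * 0)) :=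
    (tendsto_rpow_neg_atTop hν).const_mul C
  rw [mul_zero] at hlim2
  obtain ⟨X₁, hX₁⟩ := eventually_atTop.1 (hlim2.eventually (gt_mem_nhds
    (by positivity : (0 : ℝ) < ε / 4)))
  refine ⟨F, max X₁ (T ^ 2), le_trans (one_le_pow₀ hT1'') (le_max_right _ _), fun X hX => ?_⟩
  have hXν := hX₁ X ((le_max_left _ _).trans hX)
  have hXT : T ^ 2 ≤ X := (le_max_right _ _).trans hX
  have hX1 : 1 ≤ X := le_trans (one_le_pow₀ hT1'') hXT
  have hX0 : 0 < X := by linarith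
  set l : ℝ := X ^ (1 / ((d : ℝ) + 1)) with hl
  have hl1 : 1 ≤ l := Real.one_le_rpow hX1 (by positivity)
  have hl0 : 0 < l := by linarith
  have hld : l ^ (d + 1) = X := by
    rw [hl, ← Real.rpow_natCast, ← Real.rpow_mul hX0.le]
    push_cast
    rw [one_div, inv_mul_cancel₀ (by positivity), Real.rpow_one]
  have hld2 : l ^ d = X ^ gam (d + 1) := by
    rw [hl, ← Real.rpow_natCast, ← Real.rpow_mul hX0.le]
    unfold gam
    push_cast
    congr 1
    ring
  have hfinX := (hT1 X hX1).1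
  set S1 : Set (Fin d → ℤ) := {y ∈ PY d A X | ∃ i, T * l ≤ |((co y i : ℤ) : ℝ)|} with hS1
  set S2 : Set (Fin d → ℤ) := PY d (2 * A) (X / T) with hS2
  set S3 : Set (Fin d → ℤ) := {y : Fin d → ℤ | Pt (co y) ∧
    (∀ i, |((y i : ℤ) : ℝ)| ≤ R * l) ∧ (rep (co y) : ℝ) ≤ R ∧ t y ∉ F} with hS3
  have hXT1 : 1 ≤ X / T := by
    rw [le_div_iff₀ hT0]
    nlinarith
  have hS2fin : S2.Finite := (hT1' (X / T) hXT1).1
  have hS3fin : S3.Finite := by
    refine Set.Finite.subset (Finset.finite_toSet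
      (Fintype.piFinset fun _ : Fin d => Icc (-(⌊R * l⌋₊ : ℤ)) ⌊R * l⌋₊)) ?_
    rintro y ⟨-, hB, -, -⟩
    rw [mem_coe, Fintype.mem_piFinset]
    intro j
    have h3 : (y j).natAbs ≤ ⌊R * l⌋₊ := by
      apply Nat.le_floor
      rw [Nat.cast_natAbs, Int.cast_abs]
      exact hB j
    rw [mem_Icc]
    omega
  have hcov : {y ∈ PY d A X | ¬ (t y ∈ F ∧ (∀ i, |((y i : ℤ) : ℝ)| ≤ T * l) ∧
      X / T ≤ (RR (co y) : ℝ))} ⊆ S1 ∪ S2 ∪ S3 := by
    rintro y ⟨hy, hneg⟩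
    by_cases c1 : ∃ i, T * l ≤ |((co y i : ℤ) : ℝ)|
    · exact Or.inl (Or.inl ⟨hy, c1⟩)
    push Not at c1
    have c1' : ∀ i, |((y i : ℤ) : ℝ)| ≤ T * l := fun i => by
      have h4 := (c1 i.castSucc).le
      have e : co y i.castSucc = y i := by
        unfold co
        exact Fin.snoc_castSucc (α := fun _ => ℤ) _ _ i
      rwa [e] at h4
    by_cases c2 : X / T ≤ (RR (co y) : ℝ)
    · right
      have c3 : t y ∉ F := fun h => hneg ⟨h, c1', c2⟩
      refine ⟨hy.1, fun i => (c1' i).trans (mul_le_mul_of_nonneg_right hRT hl0.le), ?_, c3⟩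
      -- rep ≤ R
      obtain ⟨-, -, hmul, -, -, -⟩ := hR (d + 1) (by omega) (co y) hy.1.2
      have h5 : ((RR (co y) : ℕ) : ℝ) * (rep (co y) : ℝ) = (PP (co y) : ℝ) := by
        exact_mod_cast hmul
      have h6 : (PP (co y) : ℝ) ≤ (T * l) ^ (d + 1) := by
        unfold PP
        push_cast
        calc ∏ i, ((co y i).natAbs : ℝ) ≤ ∏ _i : Fin (d + 1), (T * l) := by
              apply prod_le_prod (fun i _ => Nat.cast_nonneg _)
              intro i _
              rw [Nat.cast_natAbs, Int.cast_abs]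
              exact (c1 i).le
          _ = (T * l) ^ (d + 1) := by rw [prod_const, card_univ, Fintype.card_fin]
      have h7 : X / T * (rep (co y) : ℝ) ≤ (T * l) ^ (d + 1) := by
        refine le_trans ?_ h6
        rw [← h5]
        exact mul_le_mul_of_nonneg_right c2 (Nat.cast_nonneg _)
      rw [mul_pow, hld, div_mul_eq_mul_div, div_le_iff₀ hT0] at h7
      have h8 : (rep (co y) : ℝ) ≤ T ^ (d + 1) * T := by
        have h9 : X * (rep (co y) : ℝ) ≤ X * (T ^ (d + 1) * T) := by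
          calc X * (rep (co y) : ℝ) ≤ T ^ (d + 1) * X * T := h7
            _ = _ := by ring
        exact le_of_mul_le_mul_left h9 hX0
      refine h8.trans ?_
      rw [hRdef]
      apply mul_le_mul_of_nonneg_right _ hT0.le
      apply pow_le_pow_left₀ hT0.le
      nlinarith
    · left; right
      push Not at c2
      refine ⟨hy.1, fun i => (hy.2.1 i).trans ?_, c2.le⟩
      have h5 : X ≤ (X / T) ^ 2 := by
        rw [div_pow, le_div_iff₀ (by positivity)]
        nlinarith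
      calc X ^ A ≤ ((X / T) ^ 2) ^ A := Real.rpow_le_rpow hX0.le h5 (by linarith)
        _ = (X / T) ^ (2 * A) := by
          rw [← Real.rpow_natCast, ← Real.rpow_mul (by positivity)]
          norm_num
  have g1 := Set.ncard_le_ncard hcov (((hfinX.subset fun y hy => hy.1).union hS2fin).union hS3fin)
  have g2 := Set.ncard_union_le (S1 ∪ S2) S3
  have g3 := Set.ncard_union_le S1 S2
  have g4 : (({y ∈ PY d A X | ¬ (t y ∈ F ∧ (∀ i, |((y i : ℤ) : ℝ)| ≤ T * l) ∧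
      X / T ≤ (RR (co y) : ℝ))}.ncard : ℕ) : ℝ) ≤ (S1.ncard : ℝ) + S2.ncard + S3.ncard := by
    exact_mod_cast (by omega : {y ∈ PY d A X | ¬ (t y ∈ F ∧
      (∀ i, |((y i : ℤ) : ℝ)| ≤ T * l) ∧ X / T ≤ (RR (co y) : ℝ))}.ncard ≤
        S1.ncard + S2.ncard + S3.ncard)
  have g5 := hT2 X T hX1 hT1''
  have g6 := (hT1' (X / T) hXT1).2
  have g7 := hF l hl1
  have e1 : (X / T) ^ gam (d + 1) = T ^ (-gam (d + 1)) * X ^ gam (d + 1) := by
    rw [Real.div_rpow hX0.le hT0.le, Real.rpow_neg hT0.le]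
    field_simp
  have e2 : X ^ (gam (d + 1) - ν) = X ^ (-ν) * X ^ gam (d + 1) := by
    rw [← Real.rpow_add hX0]
    congr 1
    ring
  rw [e1] at g6
  rw [e2] at g5
  rw [hld2] at g7
  refine g4.trans ?_
  have hXg : 0 < X ^ gam (d + 1) := by positivity
  have g8 : (C * T ^ (-(1 / 2) : ℝ) + C' * T ^ (-gam (d + 1))) * X ^ gam (d + 1) ≤
      ε / 2 / 2 * X ^ gam (d + 1) := mul_le_mul_of_nonneg_right hTb.le hXg.le
  have g9 : C * X ^ (-ν) * X ^ gam (d + 1) ≤ ε / 4 * X ^ gam (d + 1) :=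
    mul_le_mul_of_nonneg_right hXν.le hXg.le
  have g5' : (S1.ncard : ℝ) ≤ C * T ^ (-(1 / 2) : ℝ) * X ^ gam (d + 1) +
    C * (X ^ (-ν) * X ^ gam (d + 1)) := g5
  have g6' : (S2.ncard : ℝ) ≤ C' * (T ^ (-gam (d + 1)) * X ^ gam (d + 1)) := g6
  have g7' : (S3.ncard : ℝ) ≤ ε / 4 * X ^ gam (d + 1) := g7
  nlinarith [g5', g6', g7', g8, g9]

end Pool.Agent.P8H12.JN
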