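import Pool.Agent.P8H12.JN.Stm
import Pool.Agent.Y594.NT.ThrFin

set_option autoImplicit false

/-! Package TAIL. -/

namespace Pool.Agent.P8H12.JN

open Finset

lemma co_castSucc {R : Type} [AddCommGroup R] {d : ℕ} (y : Fin d → R) (i : Fin d) :
    co y i.castSucc = y i := by
  unfold co
  exact Fin.snoc_castSucc (α := fun _ => R) _ _ i

lemma co_last {R : Type} [AddCommGroup R] {d : ℕ} (y : Fin d → R) :
    co y (Fin.last d) = -∑ i, y i := by
  unfold co
  exact Fin.snoc_last (α := fun _ => R) _ _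

lemma sum_co {R : Type} [AddCommGroup R] {d : ℕ} (y : Fin d → R) : ∑ i, co y i = 0 := by
  rw [Fin.sum_univ_castSucc, co_last]
  simp only [co_castSucc]
  exact add_neg_cancel _

lemma co_inj {R : Type} [AddCommGroup R] {d : ℕ} :
    Function.Injective (co : (Fin d → R) → Fin (d + 1) → R) := by
  intro y y' h
  funext i
  rw [← co_castSucc y i, ← co_castSucc y' i, h]

lemma rad_eq (m : ℕ) : rad m = Pool.Agent.H785R2.ABC.rad m := rfl

lemma adm_of {d : ℕ} {A X : ℝ} {y : Fin d → ℤ} (hy : y ∈ PY d A X) :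
    Pool.Agent.Y594.NT.Adm A X (co y) := by
  obtain ⟨⟨h1, h2⟩, h3, h4⟩ := hy
  refine ⟨h1, sum_co y, h2, fun i => ?_, ?_⟩
  · have := h3 i
    rwa [Nat.cast_natAbs, Int.cast_abs]
  · unfold RR at h4
    push_cast at h4
    exact h4

lemma PY_finite {d : ℕ} (A X : ℝ) : (PY d A X).Finite := by
  refine Set.Finite.subset (Finset.finite_toSet
    (Fintype.piFinset fun _ : Fin d => Icc (-(⌊X ^ A⌋₊ : ℤ)) ⌊X ^ A⌋₊)) ?_
  rintro y ⟨-, hB, -⟩
  rw [mem_coe, Fintype.mem_piFinset]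
  intro j
  have h2 := hB j.castSucc
  rw [co_castSucc] at h2
  have h3 : (y j).natAbs ≤ ⌊X ^ A⌋₊ := by
    apply Nat.le_floor
    rwa [Nat.cast_natAbs, Int.cast_abs]
  rw [mem_Icc]
  omega

/-- TAIL -/
theorem tail : S_TAIL := by
  classical
  intro d hd A hA
  obtain ⟨m, rfl⟩ : ∃ m, d = m + 1 := ⟨d - 1, by omega⟩
  have hm : 1 ≤ m := by omega
  obtain ⟨C₁, hC₁, h1⟩ := Pool.Agent.Y594.NT.tot_upper m hm A hA
  obtain ⟨ν, hν, -, C₂, hC₂, h2⟩ := Pool.Agent.Y594.NT.crude m hm A hA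
  obtain ⟨C₃, hC₃, h3⟩ := Pool.Agent.Y594.NT.near Pool.Agent.Y349.NT2.usum
    Pool.Agent.Y349.NT2.latn (m + 2) (by omega)
    (1 / (2 * ((m : ℝ) + 2))) (by positivity) (by push_cast; apply le_of_eq; field_simp)
  have hm0 : (0 : ℝ) < (m : ℝ) + 2 := by positivity
  have hg : gam (m + 1 + 1) = ((m : ℝ) + 1) / (m + 2) := by
    unfold gam
    push_cast
    congr 1 <;> ring
  have hn : ((m + 1 : ℕ) : ℝ) + 1 = (m : ℝ) + 2 := by push_cast; ring
  rw [hn, hg]
  refine ⟨C₁ + C₂ + C₃, ν, by positivity, hν, fun X hX => ⟨PY_finite A X, ?_⟩, ?_⟩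
  · have h4 := h1 X hX ((PY_finite (d := m + 1) A X).toFinset.image co) (by
      intro z hz
      obtain ⟨y, hy, rfl⟩ := mem_image.1 hz
      exact adm_of ((Set.Finite.mem_toFinset _).1 hy))
    rw [card_image_of_injective _ co_inj, ← Set.ncard_eq_toFinset_card _ (PY_finite A X)] at h4
    refine h4.trans ?_
    apply mul_le_mul_of_nonneg_right _ (by positivity)
    linarith
  · intro X T hX hT
    have hX0 : 0 < X := by linarith
    obtain ⟨U, hU1, -, hbad⟩ := h2 X hX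
    set W : ℝ := T * X ^ (1 / ((m : ℝ) + 2)) with hW
    have hW1 : 1 ≤ W := by
      have : 1 ≤ X ^ (1 / ((m : ℝ) + 2)) := Real.one_le_rpow hX (by positivity)
      rw [hW]
      nlinarith
    set S : Set (Fin (m + 1) → ℤ) := {y ∈ PY (m + 1) A X | ∃ i, W ≤ |((co y i : ℤ) : ℝ)|} with hS
    have hSfin : S.Finite := (PY_finite A X).subset fun y hy => hy.1
    set E : Finset (Fin (m + 2) → ℤ) := hSfin.toFinset.image co with hE
    have hEmem : ∀ z ∈ E, Pool.Agent.Y594.NT.Adm A X z ∧ ∃ i, W ≤ ((z i).natAbs : ℝ) := by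
      intro z hz
      obtain ⟨y, hy, rfl⟩ := mem_image.1 hz
      obtain ⟨hy1, i, hi⟩ := (Set.Finite.mem_toFinset _).1 hy
      refine ⟨adm_of hy1, i, ?_⟩
      rwa [Nat.cast_natAbs, Int.cast_abs]
    have hcard : (S.ncard : ℝ) = E.card := by
      rw [hE, card_image_of_injective _ co_inj, ← Set.ncard_eq_toFinset_card _ hSfin]
    have g1 := hbad (E.filter fun z => ¬ Pool.Agent.Y594.NT.Good X U z) (fun z hz =>
      ⟨(hEmem z (mem_filter.1 hz).1).1, (mem_filter.1 hz).2⟩)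
    have g2 := h3 X hX W hW1 U (E.filter fun z => Pool.Agent.Y594.NT.Good X U z) (by
      intro z hz
      obtain ⟨hz1, hz2⟩ := mem_filter.1 hz
      obtain ⟨⟨a1, a2, a3, a4, a5⟩, a6⟩ := hEmem z hz1
      refine ⟨a1, a2, a3, a5, a6, fun i => ⟨(hz2.2 i).1, ?_⟩⟩
      exact (Nat.pow_le_pow_right hU1 (by norm_num)).trans (hz2.2 i).2.2)
    have g3 : (E.card : ℝ) = ((E.filter fun z => Pool.Agent.Y594.NT.Good X U z).card : ℝ) +
        ((E.filter fun z => ¬ Pool.Agent.Y594.NT.Good X U z).card : ℝ) := by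
      exact_mod_cast (card_filter_add_card_filter_not
        (s := E) (fun z => Pool.Agent.Y594.NT.Good X U z)).symm
    have e1 : X ^ (1 - 1 / (2 * ((m : ℝ) + 2))) *
        W ^ (-(1 - ((m + 2 : ℕ) : ℝ) * (1 / (2 * ((m : ℝ) + 2))))) =
        T ^ (-(1 / 2) : ℝ) * X ^ (((m : ℝ) + 1) / (m + 2)) := by
      have e2 : -(1 - ((m + 2 : ℕ) : ℝ) * (1 / (2 * ((m : ℝ) + 2)))) = (-(1 / 2) : ℝ) := by
        push_cast
        field_simp
        ring
      rw [e2, hW, Real.mul_rpow (by linarith) (by positivity), ← Real.rpow_mul hX0.le,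
        mul_left_comm, ← Real.rpow_add hX0]
      congr 2
      field_simp
      ring
    rw [hcard, g3]
    have e3 : C₃ * X ^ (1 - 1 / (2 * ((m : ℝ) + 2))) *
        W ^ (-(1 - ((m + 2 : ℕ) : ℝ) * (1 / (2 * ((m : ℝ) + 2))))) =
        C₃ * T ^ (-(1 / 2) : ℝ) * X ^ (((m : ℝ) + 1) / (m + 2)) := by
      rw [mul_assoc, e1, mul_assoc]
    rw [e3] at g2
    have hT0 : 0 < T := by linarith
    have p1 : 0 < T ^ (-(1 / 2) : ℝ) * X ^ (((m : ℝ) + 1) / (m + 2)) := by positivity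
    have p2 : 0 < X ^ (((m : ℝ) + 1) / (m + 2) - ν) := by positivity
    nlinarith [mul_pos hC₁ p1, mul_pos hC₂ p1, mul_pos hC₁ p2, mul_pos hC₃ p2]

end Pool.Agent.P8H12.JN
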