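import Pool.Agent.P8H12.JN.Main
import Pool.Agent.P8H12.JN.M2
import Pool.Agent.P8H12.JN.Tail
import Pool.Agent.P8H38.JN.Tl
import Pool.Agent.P8H38.JN.Epf
import Pool.Agent.P8H89.JN.AsyDat
import Pool.Agent.P8H87.JN.Rep
import Pool.Agent.P8H87.JN.MOne
import Pool.Agent.P8H87.JN.Lvl
import Pool.Agent.P8H87.JN.Eul
import Pool.Agent.P8H75.JN.VOL
import Pool.Agent.P8H75.JN.REG
import Pool.Agent.P8H75.JN.BJ
import Pool.Agent.P8H75.JG.EQ
import Pool.Agent.P8H10.JN.Dlp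
import Pool.Agent.P8H10.JN.Loc

set_option autoImplicit false

/-! All packages. -/

namespace Pool.Agent.P8H12.JN

theorem a_eq : S_EQ := Pool.Agent.P8H75.JG.eq_cosets
theorem a_per : S_PER := Pool.Agent.P8H10.JN.per
theorem a_loc : S_LOC := Pool.Agent.P8H10.JN.loc
theorem a_dlp : S_DLP := Pool.Agent.P8H10.JN.dlp a_loc a_per
theorem a_prd : S_PRD := Pool.Agent.P8H10.JN.prd a_dlp
theorem a_epf : S_EPF := Pool.Agent.P8H38.JN.epf
theorem a_tl : S_TL := Pool.Agent.P8H38.JN.tl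
theorem a_shb : S_SHB := Pool.Agent.P8H38.JN.shb
theorem a_asz : S_ASZ := Pool.Agent.P8H89.JN.asz a_eq a_per a_loc
theorem a_asy : S_ASY := Pool.Agent.P8H89.JN.asy a_asz a_tl a_prd
theorem a_rep : S_REP := Pool.Agent.P8H87.JN.rep_iff
theorem a_dat : S_DAT := Pool.Agent.P8H89.JN.dat a_asy a_rep a_shb a_prd
theorem a_reg : S_REG := Pool.Agent.P8H75.JN.reg
theorem a_scl : S_SCL := Pool.Agent.P8H75.JN.scl
theorem a_m1 : S_M1 := Pool.Agent.P8H87.JN.m1 a_reg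
theorem a_m2 : S_M2 := m2 tail a_rep
theorem a_main : S_MAIN := main a_m1 a_m2 a_scl tail
theorem a_lvl : S_LVL := Pool.Agent.P8H87.JN.lvl
theorem a_eul : S_EUL := Pool.Agent.P8H87.JN.eul a_dlp a_prd a_epf
theorem a_vol : S_VOL := Pool.Agent.P8H75.JN.vol

end Pool.Agent.P8H12.JN
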