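import Pool.Agent.P8H12.JN.All

set_option autoImplicit false

/-! Assembly: the laws in terms of the first `d` coordinates. -/

namespace Pool.Agent.P8H12.JN

open MeasureTheory Filter Topology Finset

/-- the weight of the pair (repeated part, shared part) -/
noncomputable def wt (d : ℕ) (x : ℕ × ℕ) : ℝ := (x.1 : ℝ) ^ gam (d + 1) * rho2 (d + 1) x

/-- the constant -/
noncomputable def kap (d : ℕ) : ℝ :=
  (volume (Un d)).toReal * ∑' w : ℕ, (w : ℝ) ^ gam (d + 1) * rho1 (d + 1) w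

/-- the limit law of the height -/
noncomputable def GG (d : ℕ) (L : ℝ) : ℝ :=
  ∑' x : ℕ × ℕ, wt d x * (volume (HC d ((x.1 : ℝ) * x.2 * Real.exp (-((d : ℝ) + 1) * L)) ∩
    Un d)).toReal

lemma un_ne_top {d : ℕ} (hd : 2 ≤ d) : volume (Un d) ≠ ⊤ := by
  rw [a_vol d hd]
  exact ENNReal.ofReal_ne_top

lemma un_pos {d : ℕ} (hd : 2 ≤ d) : 0 < volume (Un d) := by
  have h := ((a_lvl d hd).1 1 one_pos).2
  exact h.trans_le (measure_mono Set.inter_subset_right)

lemma un_toReal_pos {d : ℕ} (hd : 2 ≤ d) : 0 < (volume (Un d)).toReal :=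
  ENNReal.toReal_pos (un_pos hd).ne' (un_ne_top hd)

lemma cone_empty {d : ℕ} : Cone (∅ : Set (Fin d → ℝ)) :=
  ⟨MeasurableSet.empty, by simp, fun _ _ _ h => h.elim⟩

/-- the weights with `max 1 w` -/
lemma w1_eq (d : ℕ) (hd : 2 ≤ d) (j : ℕ) :
    ((max 1 j : ℕ) : ℝ) ^ gam (d + 1) * rho1 (d + 1) j = (j : ℝ) ^ gam (d + 1) * rho1 (d + 1) j := by
  rcases Nat.eq_zero_or_pos j with rfl | hj
  · unfold rho1
    simp
  · rw [max_eq_right hj]

lemma w2_eq (d : ℕ) (j : ℕ × ℕ) :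
    ((max 1 j.1 : ℕ) : ℝ) ^ gam (d + 1) * rho2 (d + 1) j = wt d j := by
  unfold wt
  rcases Nat.eq_zero_or_pos j.1 with h | hj
  · unfold rho2
    rw [if_pos (Or.inl h)]
    simp
  · rw [max_eq_right hj]

lemma wt_zero (d : ℕ) {j : ℕ × ℕ} (h : j.1 = 0 ∨ j.2 = 0) : wt d j = 0 := by
  unfold wt rho2
  rw [if_pos h, mul_zero]

lemma wt_nonneg (d : ℕ) (hd : 2 ≤ d) (j : ℕ × ℕ) : 0 ≤ wt d j :=
  mul_nonneg (Real.rpow_nonneg (Nat.cast_nonneg _) _) ((a_dat d hd).2.nn j)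

lemma summable1 (d : ℕ) (hd : 2 ≤ d) :
    Summable (fun w : ℕ => (w : ℝ) ^ gam (d + 1) * rho1 (d + 1) w) :=
  (a_main d hd (un_ne_top hd) (un_pos hd) ℕ _ _ _ (a_dat d hd).1).1.congr fun j => (w1_eq d hd j).symm ▸ rfl

lemma summable2 (d : ℕ) (hd : 2 ≤ d) : Summable (wt d) :=
  (a_main d hd (un_ne_top hd) (un_pos hd) (ℕ × ℕ) _ _ _ (a_dat d hd).2).1.congr fun j => (w2_eq d j).symm ▸ rfl

/-- total number -/
theorem total (d : ℕ) (hd : 2 ≤ d) {A : ℝ} (hA : 1 / ((d : ℝ) + 1) < A) :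
    Tendsto (fun X : ℝ => (((PY d A X).ncard : ℕ) : ℝ) / X ^ gam (d + 1)) atTop (𝓝 (kap d)) := by
  have h := (a_main d hd (un_ne_top hd) (un_pos hd) ℕ _ _ _ (a_dat d hd).1).2 A hA (fun _ => Set.univ) (fun _ => cone_univ)
  simp only [Set.mem_univ, and_true, Set.ofPred_mem_eq, Set.univ_inter, w1_eq d hd] at h
  rw [tsum_mul_right, mul_comm] at h
  exact h

/-- the joint law -/
theorem joint (d : ℕ) (hd : 2 ≤ d) {A : ℝ} (hA : 1 / ((d : ℝ) + 1) < A) (S : Set (ℕ × ℕ))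
    {Q : Set (Fin d → ℝ)} (hQ : Cone Q) :
    Tendsto (fun X : ℝ => (({y ∈ PY d A X | (rep (co y), sh (co y)) ∈ S ∧
      sc 1 y ∈ Q}.ncard : ℕ) : ℝ) / X ^ gam (d + 1)) atTop
      (𝓝 ((∑' x, S.indicator (wt d) x) * (volume (Q ∩ Un d)).toReal)) := by
  classical
  have h := (a_main d hd (un_ne_top hd) (un_pos hd) (ℕ × ℕ) _ _ _ (a_dat d hd).2).2 A hA (fun j => if j ∈ S then Q else ∅) (fun j => by
    by_cases hj : j ∈ S
    · rw [if_pos hj]; exact hQ
    · rw [if_neg hj]; exact cone_empty)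
  have e1 : ∀ j : ℕ × ℕ, ((max 1 j.1 : ℕ) : ℝ) ^ gam (d + 1) * rho2 (d + 1) j *
      (volume ((if j ∈ S then Q else ∅) ∩ Un d)).toReal =
      S.indicator (wt d) j * (volume (Q ∩ Un d)).toReal := by
    intro j
    rw [w2_eq]
    by_cases hj : j ∈ S
    · rw [if_pos hj, Set.indicator_of_mem hj]
    · rw [if_neg hj, Set.indicator_of_notMem hj, Set.empty_inter, measure_empty]
      simp
  simp only [e1] at h
  rw [tsum_mul_right] at h
  refine h.congr fun X => ?_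
  congr 3
  ext y
  constructor
  · rintro ⟨h1, h2⟩
    by_cases hj : (rep (co y), sh (co y)) ∈ S
    · rw [if_pos hj] at h2
      exact ⟨h1, hj, h2⟩
    · rw [if_neg hj] at h2
      exact h2.elim
  · rintro ⟨h1, hj, h2⟩
    refine ⟨h1, ?_⟩
    rw [if_pos hj]
    exact h2

lemma kap_eq (d : ℕ) (hd : 2 ≤ d) :
    kap d = (∑' x, wt d x) * (volume (Un d)).toReal := by
  have hA : 1 / ((d : ℝ) + 1) < 1 := by
    have : (2 : ℝ) ≤ d := by exact_mod_cast hd
    rw [div_lt_one (by positivity)]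
    linarith
  have h1 := total d hd hA
  have h2 := joint d hd hA Set.univ cone_univ
  simp only [Set.mem_univ, and_true, Set.ofPred_mem_eq, Set.univ_inter, Set.indicator_univ] at h2
  exact tendsto_nhds_unique h1 h2

/-- the cone of the datum `x` -/
lemma hc_cone (d : ℕ) (hd : 2 ≤ d) {c : ℝ} (hc : 0 < c) : Cone (HC d c) := ((a_lvl d hd).1 c hc).1

lemma HC_anti (d : ℕ) {c c' : ℝ} (h : c ≤ c') : HC d c' ⊆ HC d c := by
  intro u hu
  have h1 : c' * ‖co u‖ ^ (d + 1) ≤ Phi u := hu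
  show c * ‖co u‖ ^ (d + 1) ≤ Phi u
  exact (mul_le_mul_of_nonneg_right h (by positivity)).trans h1

/-- the height law in terms of cones -/
theorem hlaw (d : ℕ) (hd : 2 ≤ d) {A : ℝ} (hA : 1 / ((d : ℝ) + 1) < A) (L : ℝ) :
    Tendsto (fun X : ℝ => (({y ∈ PY d A X | sc 1 y ∈ HC d (((rep (co y) : ℕ) : ℝ) *
      (sh (co y) : ℕ) * Real.exp (-((d : ℝ) + 1) * L))}.ncard : ℕ) : ℝ) / X ^ gam (d + 1)) atTop
      (𝓝 (GG d L)) := by
  have h := (a_main d hd (un_ne_top hd) (un_pos hd) (ℕ × ℕ) _ _ _ (a_dat d hd).2).2 A hA (fun j => HC d (((max 1 j.1 : ℕ) : ℝ) * ((max 1 j.2 : ℕ) : ℝ) *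
    Real.exp (-((d : ℝ) + 1) * L))) (fun j => hc_cone d hd (by
      have h1 : (0 : ℝ) < ((max 1 j.1 : ℕ) : ℝ) := by exact_mod_cast (by omega)
      have h2 : (0 : ℝ) < ((max 1 j.2 : ℕ) : ℝ) := by exact_mod_cast (by omega)
      positivity))
  have e1 : ∀ j : ℕ × ℕ, ((max 1 j.1 : ℕ) : ℝ) ^ gam (d + 1) * rho2 (d + 1) j *
      (volume (HC d (((max 1 j.1 : ℕ) : ℝ) * ((max 1 j.2 : ℕ) : ℝ) *
        Real.exp (-((d : ℝ) + 1) * L)) ∩ Un d)).toReal =
      wt d j * (volume (HC d ((j.1 : ℝ) * j.2 * Real.exp (-((d : ℝ) + 1) * L)) ∩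
        Un d)).toReal := by
    intro j
    rw [w2_eq]
    by_cases hj : j.1 = 0 ∨ j.2 = 0
    · rw [wt_zero d hj, zero_mul, zero_mul]
    · push Not at hj
      rw [max_eq_right (by omega), max_eq_right (by omega)]
  simp only [e1] at h
  refine h.congr fun X => ?_
  congr 3
  ext y
  have hr : ∀ y ∈ PY d A X, 1 ≤ rep (co y) ∧ 1 ≤ sh (co y) := fun y hy =>
    (a_rep (d + 1) (by omega) (co y) hy.1.2).2.2.2.2
  constructor
  · rintro ⟨h1, h2⟩
    refine ⟨h1, ?_⟩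
    have h3 := hr y h1
    rwa [max_eq_right h3.1, max_eq_right h3.2] at h2
  · rintro ⟨h1, h2⟩
    refine ⟨h1, ?_⟩
    have h3 := hr y h1
    show sc 1 y ∈ HC d (((max 1 (rep (co y)) : ℕ) : ℝ) * ((max 1 (sh (co y)) : ℕ) : ℝ) *
      Real.exp (-((d : ℝ) + 1) * L))
    rwa [max_eq_right h3.1, max_eq_right h3.2]

lemma vol_hc_le (d : ℕ) (hd : 2 ≤ d) (c : ℝ) :
    (volume (HC d c ∩ Un d)).toReal ≤ (volume (Un d)).toReal :=
  ENNReal.toReal_mono (un_ne_top hd) (measure_mono Set.inter_subset_right)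

lemma gg_summable (d : ℕ) (hd : 2 ≤ d) (L : ℝ) : Summable fun x : ℕ × ℕ => wt d x *
    (volume (HC d ((x.1 : ℝ) * x.2 * Real.exp (-((d : ℝ) + 1) * L)) ∩ Un d)).toReal :=
  Summable.of_nonneg_of_le (fun x => mul_nonneg (wt_nonneg d hd x) ENNReal.toReal_nonneg)
    (fun x => mul_le_mul_of_nonneg_left (vol_hc_le d hd _) (wt_nonneg d hd x))
    ((summable2 d hd).mul_right _)

lemma rho11_pos (d : ℕ) (hd : 2 ≤ d) : 0 < rho2 (d + 1) (1, 1) :=
  (a_eul (d + 1) (by omega) (summable1 d hd)).2.1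

theorem gg_lt (d : ℕ) (hd : 2 ≤ d) (L : ℝ) : GG d L < kap d := by
  rw [kap_eq d hd, ← tsum_mul_right]
  unfold GG
  refine Summable.tsum_lt_tsum (i := (1, 1))
    (fun x => mul_le_mul_of_nonneg_left (vol_hc_le d hd _) (wt_nonneg d hd x)) ?_
    (gg_summable d hd L) ((summable2 d hd).mul_right _)
  have h1 : 0 < wt d (1, 1) := by
    unfold wt
    have := rho11_pos d hd
    simp only [Nat.cast_one, Real.one_rpow, one_mul]
    exact this
  apply mul_lt_mul_of_pos_left _ h1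
  set c : ℝ := (((1, 1) : ℕ × ℕ).1 : ℝ) * (((1, 1) : ℕ × ℕ).2 : ℝ) *
    Real.exp (-((d : ℝ) + 1) * L) with hc
  have hc0 : 0 < c := by
    rw [hc]
    simp only [Nat.cast_one, one_mul]
    exact Real.exp_pos _
  obtain ⟨⟨hm, -, -⟩, hpos⟩ := (a_lvl d hd).1 c hc0
  have h2 : volume (HC d c ∩ Un d) + volume ((HC d c)ᶜ ∩ Un d) = volume (Un d) := by
    have := measure_inter_add_sdiff (μ := volume) (Un d) hm
    rw [Set.inter_comm (HC d c), Set.inter_comm (HC d c)ᶜ]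
    exact this
  have hf1 : volume (HC d c ∩ Un d) ≠ ⊤ :=
    ne_top_of_le_ne_top (un_ne_top hd) (measure_mono Set.inter_subset_right)
  have hf2 : volume ((HC d c)ᶜ ∩ Un d) ≠ ⊤ :=
    ne_top_of_le_ne_top (un_ne_top hd) (measure_mono Set.inter_subset_right)
  rw [← h2, ENNReal.toReal_add hf1 hf2]
  have := ENNReal.toReal_pos hpos.ne' hf2
  linarith

theorem gg_tendsto (d : ℕ) (hd : 2 ≤ d) : Tendsto (GG d) atTop (𝓝 (kap d)) := by
  rw [kap_eq d hd, ← tsum_mul_right]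
  unfold GG
  refine tendsto_tsum_of_dominated_convergence ((summable2 d hd).mul_right
    (volume (Un d)).toReal) (fun x => ?_) (Eventually.of_forall fun L x => ?_)
  · apply Tendsto.const_mul
    have h3 := (ENNReal.tendsto_toReal (un_ne_top hd)).comp (a_lvl d hd).2
    refine tendsto_order.2 ⟨fun a ha => ?_, fun a ha => ?_⟩
    · obtain ⟨k, hk⟩ := (h3.eventually (lt_mem_nhds ha)).exists
      have h4 : Tendsto (fun L : ℝ => (x.1 : ℝ) * x.2 * Real.exp (-((d : ℝ) + 1) * L)) atTop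
          (𝓝 ((x.1 : ℝ) * x.2 * 0)) := by
        apply Tendsto.const_mul
        apply Real.tendsto_exp_atBot.comp
        exact tendsto_id.const_mul_atTop_of_neg (by
          have : (0 : ℝ) ≤ d := Nat.cast_nonneg _
          linarith)
      rw [mul_zero] at h4
      filter_upwards [h4.eventually (gt_mem_nhds (by positivity :
        (0 : ℝ) < 1 / ((k : ℝ) + 1)))] with L hL
      refine hk.trans_le ?_
      refine ENNReal.toReal_mono ?_ (measure_mono (Set.inter_subset_inter_left _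
        (HC_anti d hL.le)))
      exact ne_top_of_le_ne_top (un_ne_top hd) (measure_mono Set.inter_subset_right)
    · exact Eventually.of_forall fun L => (vol_hc_le d hd _).trans_lt ha
  · rw [Real.norm_of_nonneg (mul_nonneg (wt_nonneg d hd x) ENNReal.toReal_nonneg)]
    exact mul_le_mul_of_nonneg_left (vol_hc_le d hd _) (wt_nonneg d hd x)

theorem kap_pos (d : ℕ) (hd : 2 ≤ d) : 0 < kap d := by
  rw [kap_eq d hd]
  apply mul_pos _ (un_toReal_pos hd)
  have h1 : 0 < wt d (1, 1) := by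
    unfold wt
    have := rho11_pos d hd
    simp only [Nat.cast_one, Real.one_rpow, one_mul]
    exact this
  exact (summable2 d hd).tsum_pos (fun x => wt_nonneg d hd x) (1, 1) h1

/-- the formula for the constant -/
theorem kap_lim (d : ℕ) (hd : 2 ≤ d) : Tendsto (fun N : ℕ =>
    (2 * Real.Gamma (1 / ((d : ℝ) + 1)) * Real.cos (Real.pi / (2 * ((d : ℝ) + 1)))) ^ (d + 1) /
      (Real.pi * d) * ∏ p ∈ N.primesBelow, EP (d + 1) p) atTop (𝓝 (kap d)) := by
  have h1 := (a_eul (d + 1) (by omega) (summable1 d hd)).2.2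
  have h2 := a_vol d hd
  have hd0 : (2 : ℝ) ≤ d := by exact_mod_cast hd
  have hcos : 0 ≤ Real.cos (Real.pi / (2 * ((d : ℝ) + 1))) := by
    apply Real.cos_nonneg_of_mem_Icc
    have hpi := Real.pi_pos
    constructor
    · have : 0 ≤ Real.pi / (2 * ((d : ℝ) + 1)) := by positivity
      linarith
    · apply div_le_div_of_nonneg_left hpi.le (by norm_num)
      linarith
  have hG : 0 < Real.Gamma (1 / ((d : ℝ) + 1)) := Real.Gamma_pos_of_pos (by positivity)
  have hpi := Real.pi_pos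
  have h3 : (volume (Un d)).toReal = (2 * Real.Gamma (1 / ((d : ℝ) + 1)) *
      Real.cos (Real.pi / (2 * ((d : ℝ) + 1)))) ^ (d + 1) / (Real.pi * d) := by
    rw [h2, ENNReal.toReal_ofReal]
    apply div_nonneg _ (by positivity)
    apply pow_nonneg
    positivity
  rw [← h3]
  exact h1.const_mul _

end Pool.Agent.P8H12.JN
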