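import Pool.Agent.P8H12.JN.Stm

set_option autoImplicit false

/-! Package MAIN. -/

namespace Pool.Agent.P8H12.JN

open MeasureTheory Filter Topology Finset

/-- the truncated region -/
def BB {d : ℕ} (Q : Set (Fin d → ℝ)) (T w : ℝ) : Set (Fin d → ℝ) :=
  {u | u ∈ Q ∧ (∀ i, |u i| ≤ T) ∧ w / T ≤ Phi u ∧ Phi u ≤ w}

/-- the volume of the part `Φ ≤ 1` of the cone -/
noncomputable def VV {d : ℕ} (Q : Set (Fin d → ℝ)) : ℝ := (volume (Q ∩ Un d)).toReal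

lemma Phi_nonneg {d : ℕ} (u : Fin d → ℝ) : 0 ≤ Phi u := prod_nonneg fun _ _ => abs_nonneg _

lemma gam_pos {d : ℕ} (hd : 2 ≤ d) : 0 < gam (d + 1) := by
  unfold gam
  have : (2 : ℝ) ≤ d := by exact_mod_cast hd
  push_cast
  apply div_pos <;> linarith

lemma gam_eq {d : ℕ} : gam (d + 1) = (d : ℝ) / ((d : ℝ) + 1) := by
  unfold gam
  push_cast
  ring_nf

lemma cone_univ {d : ℕ} : Cone (Set.univ : Set (Fin d → ℝ)) :=
  ⟨MeasurableSet.univ, by simp, fun _ _ _ _ => trivial⟩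

section vol

variable {d : ℕ} (hd : 2 ≤ d) (hS : S_SCL) (hfin : volume (Un d) ≠ ⊤)

include hd hS hfin

lemma vol_zero : volume {u : Fin d → ℝ | Phi u = 0} = 0 := by
  have h : ∀ w : ℝ, 0 < w → volume {u : Fin d → ℝ | Phi u = 0} ≤
      ENNReal.ofReal (w ^ gam (d + 1)) * volume (Un d) := by
    intro w hw
    have h1 := hS d hd Set.univ cone_univ w hw
    rw [Set.univ_inter] at h1
    rw [← h1]
    exact measure_mono fun u hu => ⟨trivial, (show Phi u = 0 from hu) ▸ hw.le⟩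
  have h2 : Tendsto (fun k : ℕ => ENNReal.ofReal ((1 / ((k : ℝ) + 1)) ^ gam (d + 1)) *
      volume (Un d)) atTop (𝓝 (ENNReal.ofReal 0 * volume (Un d))) := by
    apply ENNReal.Tendsto.mul_const _ (Or.inr hfin)
    apply ENNReal.tendsto_ofReal
    have h3 := (tendsto_one_div_add_atTop_nhds_zero_nat (𝕜 := ℝ)).rpow_const
      (p := gam (d + 1)) (Or.inr (gam_pos hd).le)
    rwa [Real.zero_rpow (gam_pos hd).ne'] at h3
  rw [ENNReal.ofReal_zero, zero_mul] at h2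
  exact le_antisymm (ge_of_tendsto' h2 fun k => h _ (by positivity)) zero_le

omit hd hS in
lemma vol_cone_fin {Q : Set (Fin d → ℝ)} : volume (Q ∩ Un d) ≠ ⊤ :=
  ne_top_of_le_ne_top hfin (measure_mono Set.inter_subset_right)

lemma vol_le {Q : Set (Fin d → ℝ)} (hQ : Cone Q) {T w : ℝ} (hw : 0 < w) :
    (volume (BB Q T w)).toReal ≤ w ^ gam (d + 1) * VV Q := by
  have h1 := hS d hd Q hQ w hw
  have h2 : volume (BB Q T w) ≤ ENNReal.ofReal (w ^ gam (d + 1)) * volume (Q ∩ Un d) := by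
    rw [← h1]
    exact measure_mono fun u hu => ⟨hu.1, hu.2.2.2⟩
  have h3 : ENNReal.ofReal (w ^ gam (d + 1)) * volume (Q ∩ Un d) ≠ ⊤ :=
    ENNReal.mul_ne_top ENNReal.ofReal_ne_top (vol_cone_fin hfin)
  have h4 := ENNReal.toReal_mono h3 h2
  rwa [ENNReal.toReal_mul, ENNReal.toReal_ofReal (by positivity)] at h4

lemma vol_tendsto {Q : Set (Fin d → ℝ)} (hQ : Cone Q) {w : ℝ} (hw : 0 < w) :
    Tendsto (fun k : ℕ => (volume (BB Q ((k : ℝ) + 1) w)).toReal) atTop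
      (𝓝 (w ^ gam (d + 1) * VV Q)) := by
  have hmono : Monotone (fun k : ℕ => BB Q ((k : ℝ) + 1) w) := by
    intro k m hkm u hu
    have hkm' : (k : ℝ) + 1 ≤ (m : ℝ) + 1 := by
      have : (k : ℝ) ≤ m := by exact_mod_cast hkm
      linarith
    refine ⟨hu.1, fun i => (hu.2.1 i).trans hkm', le_trans ?_ hu.2.2.1, hu.2.2.2⟩
    exact div_le_div_of_nonneg_left hw.le (by positivity) hkm'
  have h1 := tendsto_measure_iUnion_atTop (μ := volume) hmono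
  have hU : volume (⋃ k : ℕ, BB Q ((k : ℝ) + 1) w) =
      ENNReal.ofReal (w ^ gam (d + 1)) * volume (Q ∩ Un d) := by
    rw [← hS d hd Q hQ w hw]
    apply le_antisymm
    · refine measure_mono fun u hu => ?_
      obtain ⟨k, hk⟩ := Set.mem_iUnion.1 hu
      exact ⟨hk.1, hk.2.2.2⟩
    · have hsub : {u : Fin d → ℝ | u ∈ Q ∧ Phi u ≤ w} ⊆
          (⋃ k : ℕ, BB Q ((k : ℝ) + 1) w) ∪ {u | Phi u = 0} := by
        rintro u ⟨h2, h3⟩
        rcases (Phi_nonneg u).eq_or_lt with h4 | h4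
        · exact Or.inr h4.symm
        · left
          rw [Set.mem_iUnion]
          obtain ⟨k, hk⟩ := exists_nat_ge (max (w / Phi u) (∑ i, |u i|))
          refine ⟨k, h2, fun i => ?_, ?_, h3⟩
          · have h5 : |u i| ≤ ∑ i, |u i| :=
              single_le_sum (f := fun i => |u i|) (fun i _ => abs_nonneg _) (mem_univ i)
            have h6 := (le_max_right (w / Phi u) (∑ i, |u i|)).trans hk
            linarith
          · have h6 := (le_max_left (w / Phi u) (∑ i, |u i|)).trans hk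
            rw [div_le_iff₀ (by positivity)]
            rw [div_le_iff₀ h4] at h6
            nlinarith
      refine (measure_mono hsub).trans ((measure_union_le _ _).trans ?_)
      rw [vol_zero hd hS hfin, add_zero]
  rw [hU] at h1
  have h3 : ENNReal.ofReal (w ^ gam (d + 1)) * volume (Q ∩ Un d) ≠ ⊤ :=
    ENNReal.mul_ne_top ENNReal.ofReal_ne_top (vol_cone_fin hfin)
  have h4 := (ENNReal.tendsto_toReal h3).comp h1
  rw [ENNReal.toReal_mul, ENNReal.toReal_ofReal (by positivity)] at h4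
  exact h4

end vol

lemma VV_nonneg {d : ℕ} (Q : Set (Fin d → ℝ)) : 0 ≤ VV Q := ENNReal.toReal_nonneg

lemma VV_mono {d : ℕ} (hfin : volume (Un d) ≠ ⊤) (Q : Set (Fin d → ℝ)) :
    VV Q ≤ VV (Set.univ : Set (Fin d → ℝ)) := by
  unfold VV
  apply ENNReal.toReal_mono
  · rwa [Set.univ_inter]
  · exact measure_mono (Set.inter_subset_inter_left _ (Set.subset_univ _))

/-- the truncated set of points -/
def TR {d : ℕ} {J : Type} (t : (Fin d → ℤ) → J) (A : ℝ) (Q : J → Set (Fin d → ℝ)) (T : ℝ)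
    (F : Finset J) (X : ℝ) : Set (Fin d → ℤ) :=
  {y ∈ PY d A X | t y ∈ F ∧ sc 1 y ∈ Q (t y) ∧
    (∀ i, |((y i : ℤ) : ℝ)| ≤ T * X ^ (1 / ((d : ℝ) + 1))) ∧ X / T ≤ (RR (co y) : ℝ)}

section main

variable {d : ℕ} (hd : 2 ≤ d) (h1 : S_M1) (h2 : S_M2) (hS : S_SCL) (hT : S_TAIL)
  (hfin : volume (Un d) ≠ ⊤) (hpos : 0 < volume (Un d))
  {J : Type} {t : (Fin d → ℤ) → J} {w : J → ℕ} {ρ : J → ℝ} (hD : Dat d J t w ρ)

include hd h1 hS hT hfin hpos hD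

lemma summ : Summable (fun j => (w j : ℝ) ^ gam (d + 1) * ρ j) := by
  obtain ⟨C, ν, hC, hν, hT1, hT2⟩ := hT d hd 1 le_rfl
  have hd0 : (2 : ℝ) ≤ d := by exact_mod_cast hd
  have hA : 1 / ((d : ℝ) + 1) < 1 := by
    rw [div_lt_one (by positivity)]
    linarith
  have hV : 0 < VV (Set.univ : Set (Fin d → ℝ)) := by
    unfold VV
    rw [Set.univ_inter]
    exact ENNReal.toReal_pos hpos.ne' hfin
  have hw0 : ∀ j, (0 : ℝ) < w j := fun j => by exact_mod_cast (hD.w1 j)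
  have key : ∀ F : Finset J, ∑ j ∈ F, ρ j * ((w j : ℝ) ^ gam (d + 1) *
      VV (Set.univ : Set (Fin d → ℝ))) ≤ C := by
    intro F
    have h3 : ∀ k : ℕ, ∑ j ∈ F, ρ j * (volume (BB (Set.univ : Set (Fin d → ℝ)) ((k : ℝ) + 1)
        (w j))).toReal ≤ C := by
      intro k
      have h4 := h1 d hd J t w ρ hD 1 hA (fun _ => Set.univ) (fun _ => cone_univ) ((k : ℝ) + 1)
        (by linarith [Nat.cast_nonneg (α := ℝ) k]) F
      refine le_of_tendsto h4 ?_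
      filter_upwards [eventually_ge_atTop (1 : ℝ)] with X hX
      rw [div_le_iff₀ (by positivity)]
      refine le_trans ?_ (hT1 X hX).2
      have hsub : {y ∈ PY d 1 X | t y ∈ F ∧ sc 1 y ∈ (Set.univ : Set (Fin d → ℝ)) ∧
          (∀ i, |((y i : ℤ) : ℝ)| ≤ ((k : ℝ) + 1) * X ^ (1 / ((d : ℝ) + 1))) ∧
            X / ((k : ℝ) + 1) ≤ (RR (co y) : ℝ)} ⊆ PY d 1 X := fun y hy => hy.1
      exact_mod_cast Set.ncard_le_ncard hsub (hT1 X hX).1
    have h5 : Tendsto (fun k : ℕ => ∑ j ∈ F, ρ j * (volume (BB (Set.univ : Set (Fin d → ℝ))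
        ((k : ℝ) + 1) (w j))).toReal) atTop (𝓝 (∑ j ∈ F, ρ j * ((w j : ℝ) ^ gam (d + 1) *
          VV (Set.univ : Set (Fin d → ℝ))))) :=
      tendsto_finsetSum _ fun j _ => (vol_tendsto hd hS hfin cone_univ (hw0 j)).const_mul _
    exact le_of_tendsto' h5 h3
  refine summable_of_sum_le (c := C / VV (Set.univ : Set (Fin d → ℝ))) (fun j => ?_) fun F => ?_
  · exact mul_nonneg (by positivity) (hD.nn j)
  · rw [le_div_iff₀ hV, sum_mul]
    refine le_trans (le_of_eq (sum_congr rfl fun j _ => ?_)) (key F)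
    ring

include h2

lemma big {A : ℝ} (hA : 1 ≤ A) {Q : J → Set (Fin d → ℝ)} (hQ : ∀ j, Cone (Q j)) :
    Tendsto (fun X : ℝ => (({y ∈ PY d A X | sc 1 y ∈ Q (t y)}.ncard : ℕ) : ℝ) /
      X ^ gam (d + 1)) atTop
      (𝓝 (∑' j, (w j : ℝ) ^ gam (d + 1) * ρ j * VV (Q j))) := by
  classical
  obtain ⟨C, ν, hC, hν, hT1, hT2⟩ := hT d hd A hA
  have hd0 : (2 : ℝ) ≤ d := by exact_mod_cast hd
  have hA' : 1 / ((d : ℝ) + 1) < A := by
    refine lt_of_lt_of_le ?_ hA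
    rw [div_lt_one (by positivity)]
    linarith
  have hw0 : ∀ j, (0 : ℝ) < w j := fun j => by exact_mod_cast (hD.w1 j)
  have hsum := summ hd h1 hS hT hfin hpos hD
  have hc0 : ∀ j, 0 ≤ (w j : ℝ) ^ gam (d + 1) * ρ j * VV (Q j) := fun j =>
    mul_nonneg (mul_nonneg (by positivity) (hD.nn j)) (VV_nonneg _)
  have hsum2 : Summable (fun j => (w j : ℝ) ^ gam (d + 1) * ρ j * VV (Q j)) := by
    refine Summable.of_nonneg_of_le hc0 (fun j => ?_)
      (hsum.mul_right (VV (Set.univ : Set (Fin d → ℝ))))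
    exact mul_le_mul_of_nonneg_left (VV_mono hfin _)
      (mul_nonneg (by positivity) (hD.nn j))
  set S := ∑' j, (w j : ℝ) ^ gam (d + 1) * ρ j * VV (Q j) with hSdef
  rw [Metric.tendsto_nhds]
  intro ε hε
  obtain ⟨T₀, hT₀, hM2⟩ := h2 d hd J t w ρ hD A hA (ε / 4) (by positivity)
  -- a finite set of data
  obtain ⟨F₀, hF₀⟩ : ∃ F₀ : Finset J,
      S - ε / 4 < ∑ j ∈ F₀, (w j : ℝ) ^ gam (d + 1) * ρ j * VV (Q j) := by
    have h3 := hsum2.hasSum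
    have h4 : ∀ᶠ F : Finset J in atTop,
        S - ε / 4 < ∑ j ∈ F, (w j : ℝ) ^ gam (d + 1) * ρ j * VV (Q j) :=
      h3.eventually (lt_mem_nhds (by linarith))
    exact h4.exists
  -- a large truncation
  have h5 : Tendsto (fun k : ℕ => ∑ j ∈ F₀, ρ j * (volume (BB (Q j) ((k : ℝ) + 1)
      (w j))).toReal) atTop (𝓝 (∑ j ∈ F₀, ρ j * ((w j : ℝ) ^ gam (d + 1) * VV (Q j)))) :=
    tendsto_finsetSum _ fun j _ => (vol_tendsto hd hS hfin (hQ j) (hw0 j)).const_mul _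
  have e1 : ∑ j ∈ F₀, ρ j * ((w j : ℝ) ^ gam (d + 1) * VV (Q j)) =
      ∑ j ∈ F₀, (w j : ℝ) ^ gam (d + 1) * ρ j * VV (Q j) := sum_congr rfl fun j _ => by ring
  rw [e1] at h5
  obtain ⟨k, hk1, hk2⟩ := ((h5.eventually (lt_mem_nhds hF₀)).and
    (eventually_ge_atTop ⌈T₀⌉₊)).exists
  obtain ⟨T, hTk⟩ : ∃ T : ℝ, T = (k : ℝ) + 1 := ⟨_, rfl⟩
  rw [← hTk] at hk1
  have hTT : T₀ ≤ T := by
    have h6 : T₀ ≤ (⌈T₀⌉₊ : ℝ) := Nat.le_ceil _
    have h7 : ((⌈T₀⌉₊ : ℕ) : ℝ) ≤ k := by exact_mod_cast hk2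
    linarith
  have hT1' : 1 ≤ T := hT₀.trans hTT
  obtain ⟨F, X₀, hX₀, hM⟩ := hM2 T hTT
  set G := F ∪ F₀ with hG
  set L := ∑ j ∈ G, ρ j * (volume (BB (Q j) T (w j))).toReal with hL
  have hL1 : S - ε / 4 < L := by
    refine hk1.trans_le ?_
    exact sum_le_sum_of_subset_of_nonneg subset_union_right fun j _ _ =>
      mul_nonneg (hD.nn j) ENNReal.toReal_nonneg
  have hL2 : L ≤ S := by
    refine le_trans (sum_le_sum fun j _ => mul_le_mul_of_nonneg_left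
      (vol_le hd hS hfin (hQ j) (hw0 j)) (hD.nn j)) ?_
    refine le_trans (le_of_eq (sum_congr rfl fun j _ => ?_))
      (hsum2.sum_le_tsum G fun j _ => hc0 j)
    ring
  have hlim := h1 d hd J t w ρ hD A hA' Q hQ T hT1' G
  have hlim' : Tendsto (fun X : ℝ => (((TR t A Q T G X).ncard : ℕ) : ℝ) / X ^ gam (d + 1)) atTop
      (𝓝 L) := hlim
  have h8 := (Metric.tendsto_nhds.1 hlim') (ε / 4) (by positivity)
  filter_upwards [h8, eventually_ge_atTop X₀] with X hX1 hX2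
  have hX1' : 1 ≤ X := hX₀.trans hX2
  have hX0 : 0 < X ^ gam (d + 1) := by positivity
  rw [Real.dist_eq, abs_lt] at hX1 ⊢
  have hfinX := (hT1 X hX1').1
  set N := {y ∈ PY d A X | sc 1 y ∈ Q (t y)} with hN
  have g1 : (TR t A Q T G X).ncard ≤ N.ncard :=
    Set.ncard_le_ncard (fun y hy => ⟨hy.1, hy.2.2.1⟩) (hfinX.subset fun y hy => hy.1)
  have g2 : N ⊆ TR t A Q T G X ∪ {y ∈ PY d A X | ¬ (t y ∈ F ∧
      (∀ i, |((y i : ℤ) : ℝ)| ≤ T * X ^ (1 / ((d : ℝ) + 1))) ∧ X / T ≤ (RR (co y) : ℝ))} := by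
    rintro y ⟨hy1, hy2⟩
    by_cases hc : t y ∈ F ∧ (∀ i, |((y i : ℤ) : ℝ)| ≤ T * X ^ (1 / ((d : ℝ) + 1))) ∧
        X / T ≤ (RR (co y) : ℝ)
    · exact Or.inl ⟨hy1, mem_union_left _ hc.1, hy2, hc.2.1, hc.2.2⟩
    · exact Or.inr ⟨hy1, hc⟩
  have g3 : (N.ncard : ℝ) ≤ (TR t A Q T G X).ncard + ε / 4 * X ^ gam (d + 1) := by
    have g4 := Set.ncard_le_ncard g2 ((hfinX.subset fun y hy => hy.1).union
      (hfinX.subset fun y hy => hy.1))
    have g5 := Set.ncard_union_le (TR t A Q T G X) {y ∈ PY d A X | ¬ (t y ∈ F ∧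
      (∀ i, |((y i : ℤ) : ℝ)| ≤ T * X ^ (1 / ((d : ℝ) + 1))) ∧ X / T ≤ (RR (co y) : ℝ))}
    have g6 := hM X hX2
    have g7 : (N.ncard : ℝ) ≤ (TR t A Q T G X).ncard + ({y ∈ PY d A X | ¬ (t y ∈ F ∧
      (∀ i, |((y i : ℤ) : ℝ)| ≤ T * X ^ (1 / ((d : ℝ) + 1))) ∧
        X / T ≤ (RR (co y) : ℝ))}.ncard : ℕ) := by exact_mod_cast g4.trans g5
    linarith
  have g8 : ((TR t A Q T G X).ncard : ℝ) / X ^ gam (d + 1) ≤ (N.ncard : ℝ) / X ^ gam (d + 1) :=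
    div_le_div_of_nonneg_right (by exact_mod_cast g1) hX0.le
  have g9 : (N.ncard : ℝ) / X ^ gam (d + 1) ≤
      ((TR t A Q T G X).ncard : ℝ) / X ^ gam (d + 1) + ε / 4 := by
    rw [div_le_iff₀ hX0, add_mul, div_mul_cancel₀ _ hX0.ne']
    exact g3
  constructor <;> linarith [hX1.1, hX1.2]

lemma small {A : ℝ} (hA : 1 / ((d : ℝ) + 1) < A) (hA1 : A < 1) {Q : J → Set (Fin d → ℝ)}
    (hQ : ∀ j, Cone (Q j)) :
    Tendsto (fun X : ℝ => (({y ∈ PY d A X | sc 1 y ∈ Q (t y)}.ncard : ℕ) : ℝ) /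
      X ^ gam (d + 1)) atTop
      (𝓝 (∑' j, (w j : ℝ) ^ gam (d + 1) * ρ j * VV (Q j))) := by
  obtain ⟨C, ν, hC, hν, hT1, hT2⟩ := hT d hd 1 le_rfl
  have hb := big hd h1 h2 hS hT hfin hpos hD le_rfl hQ
  have hd0 : (2 : ℝ) ≤ d := by exact_mod_cast hd
  obtain ⟨δ, hδ⟩ : ∃ δ : ℝ, δ = A - 1 / ((d : ℝ) + 1) := ⟨_, rfl⟩
  have hδ0 : 0 < δ := by rw [hδ]; linarith
  -- the difference
  have hdiff : Tendsto (fun X : ℝ => C * X ^ (-(δ / 2)) + C * X ^ (-ν)) atTop (𝓝 (C * 0 + C * 0)) :=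
    ((tendsto_rpow_neg_atTop (by positivity)).const_mul C).add
      ((tendsto_rpow_neg_atTop hν).const_mul C)
  rw [mul_zero, add_zero] at hdiff
  have hlow := hb.sub hdiff
  rw [sub_zero] at hlow
  refine tendsto_of_tendsto_of_tendsto_of_le_of_le' hlow hb ?_ ?_
  · filter_upwards [eventually_ge_atTop (1 : ℝ)] with X hX
    have hX0 : 0 < X := by linarith
    have hXg : 0 < X ^ gam (d + 1) := by positivity
    have hfinX := (hT1 X hX).1
    have g1 : {y ∈ PY d 1 X | sc 1 y ∈ Q (t y)} ⊆ {y ∈ PY d A X | sc 1 y ∈ Q (t y)} ∪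
        {y ∈ PY d 1 X | ∃ i, X ^ δ * X ^ (1 / ((d : ℝ) + 1)) ≤ |((co y i : ℤ) : ℝ)|} := by
      rintro y ⟨hy1, hy2⟩
      by_cases hc : ∀ i, |((co y i : ℤ) : ℝ)| ≤ X ^ A
      · exact Or.inl ⟨⟨hy1.1, hc, hy1.2.2⟩, hy2⟩
      · right
        push Not at hc
        obtain ⟨i, hi⟩ := hc
        refine ⟨hy1, i, ?_⟩
        rw [← Real.rpow_add hX0]
        have e : δ + 1 / ((d : ℝ) + 1) = A := by rw [hδ]; ring
        rw [e]
        exact hi.le
    have hfinA : ({y ∈ PY d A X | sc 1 y ∈ Q (t y)}).Finite := by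
      refine hfinX.subset fun y hy => ⟨hy.1.1, fun i => (hy.1.2.1 i).trans ?_, hy.1.2.2⟩
      exact Real.rpow_le_rpow_of_exponent_le hX hA1.le
    have g2 := Set.ncard_le_ncard g1 (hfinA.union (hfinX.subset fun y hy => hy.1))
    have g3 := Set.ncard_union_le {y ∈ PY d A X | sc 1 y ∈ Q (t y)}
      {y ∈ PY d 1 X | ∃ i, X ^ δ * X ^ (1 / ((d : ℝ) + 1)) ≤ |((co y i : ℤ) : ℝ)|}
    have g4 := hT2 X (X ^ δ) hX (Real.one_le_rpow hX hδ0.le)
    have e1 : (X ^ δ) ^ (-(1 / 2) : ℝ) = X ^ (-(δ / 2)) := by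
      rw [← Real.rpow_mul hX0.le]
      congr 1
      ring
    have e2 : X ^ (gam (d + 1) - ν) = X ^ (-ν) * X ^ gam (d + 1) := by
      rw [← Real.rpow_add hX0]
      congr 1
      ring
    rw [e1, e2] at g4
    have g5 : (({y ∈ PY d 1 X | sc 1 y ∈ Q (t y)}.ncard : ℕ) : ℝ) ≤
        ({y ∈ PY d A X | sc 1 y ∈ Q (t y)}.ncard : ℕ) +
          (C * X ^ (-(δ / 2)) + C * X ^ (-ν)) * X ^ gam (d + 1) := by
      have g6 : (({y ∈ PY d 1 X | sc 1 y ∈ Q (t y)}.ncard : ℕ) : ℝ) ≤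
        ({y ∈ PY d A X | sc 1 y ∈ Q (t y)}.ncard : ℕ) +
          ({y ∈ PY d 1 X | ∃ i, X ^ δ * X ^ (1 / ((d : ℝ) + 1)) ≤
            |((co y i : ℤ) : ℝ)|}.ncard : ℕ) := by exact_mod_cast g2.trans g3
      nlinarith [g4, g6]
    rw [sub_le_iff_le_add, div_le_iff₀ hXg, add_mul, div_mul_cancel₀ _ hXg.ne']
    exact g5
  · filter_upwards [eventually_ge_atTop (1 : ℝ)] with X hX
    apply div_le_div_of_nonneg_right _ (by positivity)
    have : {y ∈ PY d A X | sc 1 y ∈ Q (t y)} ⊆ {y ∈ PY d 1 X | sc 1 y ∈ Q (t y)} :=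
      fun y hy => ⟨⟨hy.1.1, fun i => (hy.1.2.1 i).trans
        (Real.rpow_le_rpow_of_exponent_le hX hA1.le), hy.1.2.2⟩, hy.2⟩
    exact_mod_cast Set.ncard_le_ncard this ((hT1 X hX).1.subset fun y hy => hy.1)

end main

/-- MAIN -/
theorem main (h1 : S_M1) (h2 : S_M2) (hS : S_SCL) (hT : S_TAIL) : S_MAIN := by
  intro d hd hfin hpos J t w ρ hD
  refine ⟨summ hd h1 hS hT hfin hpos hD, fun A hA Q hQ => ?_⟩
  rcases lt_or_ge A 1 with h | h
  · exact small hd h1 h2 hS hT hfin hpos hD hA h hQ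
  · exact big hd h1 h2 hS hT hfin hpos hD h hQ

end Pool.Agent.P8H12.JN
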