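import Mathlib

set_option autoImplicit false

/-!
# Project JN (row `MP_7475bd_nt`, the `n`-term abc conjecture over `ℚ`), helper12

The points `z` of the hyperplane `z_1 + ⋯ + z_n = 0`, `n = d + 1 ≥ 3`, ordered by the product of the
radicals of the coordinates: asymptotic number, joint limit law of the repeated part, the shared part
and the real shape, limit law of `h - rad / n`. Statements of the packages; the proofs are in the
docstrings. All packages import only Mathlib and this file, except EQ (done: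
`Pool.Agent.P8H75.JG.EQ`), TAIL and REG.
-/

namespace Pool.Agent.P8H12.JN

open MeasureTheory Filter Topology Finset

/-- the point `(y_1, …, y_d, -(y_1 + ⋯ + y_d))` of the hyperplane -/
def co {R : Type} [AddCommGroup R] {d : ℕ} (y : Fin d → R) : Fin (d + 1) → R :=
  Fin.snoc (α := fun _ => R) y (-∑ i, y i)

/-- the product of the primes dividing `m` -/
def rad (m : ℕ) : ℕ := ∏ p ∈ m.primeFactors, p

/-- `|z_1 ⋯ z_n|` -/
def PP {n : ℕ} (z : Fin n → ℤ) : ℕ := ∏ i, (z i).natAbs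

/-- the product of the radicals of the coordinates -/
def RR {n : ℕ} (z : Fin n → ℤ) : ℕ := ∏ i, rad (z i).natAbs

/-- the repeated part -/
def rep {n : ℕ} (z : Fin n → ℤ) : ℕ := PP z / RR z

/-- the shared part -/
def sh {n : ℕ} (z : Fin n → ℤ) : ℕ := RR z / rad (PP z)

/-- coprime coordinates, none of them zero -/
def Pt {n : ℕ} (z : Fin n → ℤ) : Prop := univ.gcd z = 1 ∧ ∀ i, z i ≠ 0

/-- `z` is primitive at `p`, and for the orders `a_i` of its coordinates at `p` one has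
`x = (∑ max (a_i - 1) 0, max (#{a_i > 0} - 1) 0)` (no such `x` if a coordinate is zero) -/
def Typ {n : ℕ} (p : ℕ) (x : ℕ × ℕ) (z : Fin n → ℤ) : Prop :=
  ∃ a : Fin n → ℕ, (∀ i, (p : ℤ) ^ a i ∣ z i ∧ ¬ (p : ℤ) ^ (a i + 1) ∣ z i) ∧ (∃ i, a i = 0) ∧
    ∑ i, (a i - 1) = x.1 ∧ (univ.filter fun i => a i ≠ 0).card - 1 = x.2

/-- the proportion of the vectors of `j` units modulo `p` with sum zero, relative to `p ^ (j - 1)` -/
noncomputable def uu (p : ℝ) (j : ℕ) : ℝ := ((p - 1) ^ j + (-1) ^ j * (p - 1)) / p ^ j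

/-- the local density of the type `x` at the prime `p` -/
noncomputable def dl (n : ℕ) (p : ℝ) (x : ℕ × ℕ) : ℝ :=
  if x = (0, 0) then uu p n + n * (1 - 1 / p) / p * uu p (n - 1)
  else if x.2 + 3 ≤ n then (n.choose (x.2 + 1) : ℝ) * ((x.1 + x.2).choose x.2 : ℝ) *
    (1 - 1 / p) ^ (x.2 + 1) / p ^ (x.1 + x.2 + 1) * uu p (n - x.2 - 1)
  else 0

/-- `(1 - 1 / p) / (p (1 - p ^ (- 1 / n)))` -/
noncomputable def yy (n : ℕ) (p : ℝ) : ℝ := (1 - 1 / p) / p / (1 - p ^ (-(1 / (n : ℝ))))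

/-- the factor of the constant at `p` -/
noncomputable def EP (n : ℕ) (p : ℝ) : ℝ :=
  (1 - 1 / p + yy n p) ^ n + (p - 1) * (yy n p - 1 / p) ^ n - p * yy n p ^ n

/-- the exponent `(n - 1) / n` -/
noncomputable def gam (n : ℕ) : ℝ := ((n : ℝ) - 1) / n

/-- the product of the local densities of sets of types -/
noncomputable def rhoE (n : ℕ) (E : ℕ → Finset (ℕ × ℕ)) : ℝ :=
  ∏' p : Nat.Primes, ∑ x ∈ E p, dl n p x

/-- the types with repeated part `w` -/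
def E1 (n w : ℕ) (p : ℕ) : Finset (ℕ × ℕ) := (range n).image fun f => (w.factorization p, f)

/-- the type with repeated part `w` and shared part `s` -/
def E2 (w s : ℕ) (p : ℕ) : Finset (ℕ × ℕ) := {(w.factorization p, s.factorization p)}

/-- the density of the repeated part `w` -/
noncomputable def rho1 (n w : ℕ) : ℝ := if w = 0 then 0 else rhoE n (E1 n w)

/-- the density of the pair (repeated part, shared part) -/
noncomputable def rho2 (n : ℕ) (x : ℕ × ℕ) : ℝ :=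
  if x.1 = 0 ∨ x.2 = 0 then 0 else rhoE n (E2 x.1 x.2)

/-- `|u_1 ⋯ u_d (u_1 + ⋯ + u_d)|` -/
def Phi {d : ℕ} (u : Fin d → ℝ) : ℝ := ∏ i, |co u i|

/-- `D` is Jordan measurable -/
def Jor {d : ℕ} (D : Set (Fin d → ℝ)) : Prop :=
  Bornology.IsBounded D ∧ MeasurableSet D ∧ volume (frontier D) = 0

/-- a cone with null frontier -/
def Cone {d : ℕ} (Q : Set (Fin d → ℝ)) : Prop :=
  MeasurableSet Q ∧ volume (frontier Q) = 0 ∧ ∀ t : ℝ, 0 < t → ∀ u ∈ Q, t • u ∈ Q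

/-- the set `Φ ≤ 1` -/
def Un (d : ℕ) : Set (Fin d → ℝ) := {u | Phi u ≤ 1}

/-- the real point `y / l` -/
noncomputable def sc {d : ℕ} (l : ℝ) (y : Fin d → ℤ) : Fin d → ℝ := fun i => (y i : ℝ) / l

/-- the points of height at most `X ^ A` and with product of the radicals at most `X` -/
def PY (d : ℕ) (A X : ℝ) : Set (Fin d → ℤ) :=
  {y | Pt (co y) ∧ (∀ i, |((co y i : ℤ) : ℝ)| ≤ X ^ A) ∧ (RR (co y) : ℝ) ≤ X}

/-- the cone `c max |u_i| ^ n ≤ |∏ u_i|` -/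
def HC (d : ℕ) (c : ℝ) : Set (Fin d → ℝ) := {u | c * ‖co u‖ ^ (d + 1) ≤ Phi u}

/-! ## The packages -/

/-- EQ (done: `Pool.Agent.P8H75.JG.EQ`) -/
def S_EQ : Prop := ∀ (d : ℕ) (D : Set (Fin d → ℝ)), Jor D → ∀ (m : ℕ), 0 < m →
  ∀ v : Fin d → ℤ, Tendsto (fun l : ℝ =>
    (({z : Fin d → ℤ | (∃ y : Fin d → ℤ, ∀ i, z i = v i + m * y i) ∧
      (fun i => (z i : ℝ) / l) ∈ D}.ncard : ℕ) : ℝ) / l ^ d) atTop
    (𝓝 ((volume D).toReal / (m : ℝ) ^ d))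

/-- PER (60 lines): the type `x` at `p` depends on the vector modulo `p ^ (x.1 + 2)` only, since
`a_i ≤ x.1 + 1`; types are unique. -/
def S_PER : Prop := ∀ (n p : ℕ), p.Prime → (∀ (x : ℕ × ℕ) (m : ℕ), x.1 + 2 ≤ m →
    ∀ z z' : Fin n → ℤ, (∀ i, (p : ℤ) ^ m ∣ z i - z' i) → Typ p x z → Typ p x z') ∧
  ∀ (x x' : ℕ × ℕ) (z : Fin n → ℤ), Typ p x z → Typ p x' z → x = x'

/-- LOC (200 lines): the number of the residue classes modulo `q = p ^ m` of type `x = (e, f)`.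
Proof. Sort by the set `K = {i : a_i > 0}` (of `k ≤ n - 2` elements, since `z` is primitive and the
sum is zero; `k = f + 1`, or `k ∈ {0, 1}` if `f = 0`, and `e = 0` if `k = 0`) and by the exponents
`a : K → ℕ`, `a_i ≥ 1`, `∑ (a_i - 1) = e` (`(e + k - 1).choose (k - 1)` possibilities). For given
`K`, `a` there are `p ^ (m - a_i) - p ^ (m - a_i - 1)` classes for `z_i`, `i ∈ K`, and for given
`(z_i)_{i ∈ K}` (sum divisible by `p`) the other `j = n - k ≥ 2` coordinates are units with given sum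
`c ≡ 0 mod p`: `p ^ ((m - 1) (j - 1))` times the number `((p - 1) ^ j + (-1) ^ j (p - 1)) / p` of the
vectors of `j` nonzero elements of `ZMod p` with sum zero (induction on `j`), as the reduction modulo
`p` of the first `j - 1` of them determines the last one modulo `p`. -/
def S_LOC : Prop := ∀ (d p : ℕ), 2 ≤ d → p.Prime → ∀ (x : ℕ × ℕ) (m : ℕ), x.1 + 2 ≤ m →
  (({c : Fin d → ZMod (p ^ m) | ∃ y : Fin d → ℤ, (∀ i, ((y i : ℤ) : ZMod (p ^ m)) = c i) ∧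
    Typ p x (co y)}.ncard : ℕ) : ℝ) = dl (d + 1) p x * ((p : ℝ) ^ m) ^ d

/-- DLP (120 lines, from LOC and PER for the first two claims): `dl` is nonnegative with partial sums
at most one (counting), positive at `(0, 0)` (formula: `uu p j ≥ 0` for `j ≥ 1`, `uu p j > 0` for
`j ≥ 2` unless `p = 2` and `j` is odd), and at least `1 - C / p ^ 2` there (formula, with
`(1 - 1 / p) ^ j ≥ 1 - j / p`: `uu p n ≥ 1 - n / p - 1 / p ^ 2`,
`uu p (n - 1) ≥ 1 - (n - 1) / p - 1 / p`; or counting). -/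
def S_DLP : Prop := ∀ n : ℕ, 3 ≤ n →
  (∀ p : ℕ, p.Prime → (∀ x, 0 ≤ dl n p x) ∧ (∀ E : Finset (ℕ × ℕ), ∑ x ∈ E, dl n p x ≤ 1) ∧
    0 < dl n p (0, 0)) ∧
  ∃ C : ℝ, 0 < C ∧ ∀ p : ℕ, p.Prime → 1 - C / (p : ℝ) ^ 2 ≤ dl n p (0, 0)

/-- EPF (120 lines): the local factor. Proof. With `x = 1 - 1 / p`, `y = yy n p` one has
`∑_e C(e + k - 1, k - 1) p ^ (gam e) x ^ k / p ^ (e + k) = y ^ k` for `k ≥ 1`
(`tsum_choose_mul_geometric_of_norm_lt_one`, ratio `p ^ (gam - 1) = p ^ (-1 / n)`); so the sum is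
`∑_{k ≤ n - 2} C(n, k) y ^ k uu p (n - k)` with
`uu p j = x ^ j + (p - 1) (-1 / p) ^ j`, and `uu p 1 = 0`, `uu p 0 = p`; binomial theorem. -/
def S_EPF : Prop := ∀ n : ℕ, 3 ≤ n → ∀ p : ℕ, p.Prime →
  HasSum (fun e : ℕ => (p : ℝ) ^ (gam n * e) * ∑ f ∈ range n, dl n p (e, f)) (EP n p)

/-- ASZ (200 lines, from EQ, PER, LOC): local conditions at finitely many primes. Proof. With
`m_p = max_{x ∈ E p} x.1 + 2` the condition at `p` depends on the classes modulo `p ^ (m_p)` and holds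
for `∑_{x ∈ E p} dl x · (p ^ (m_p)) ^ d` classes (LOC and uniqueness of types). CRT
(`ZMod.prodEquivPi` or induction on `Z`): it holds at all `p ∈ Z` for the product of these numbers of
classes modulo `M = ∏ p ^ (m_p)`; EQ for each of them. -/
def S_ASZ : Prop := ∀ (d : ℕ), 2 ≤ d → ∀ (Z : Finset ℕ), (∀ p ∈ Z, p.Prime) →
  ∀ (E : ℕ → Finset (ℕ × ℕ)) (D : Set (Fin d → ℝ)), Jor D →
  Tendsto (fun l : ℝ => (({y : Fin d → ℤ | (∀ p ∈ Z, ∃ x ∈ E p, Typ p x (co y)) ∧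
    sc l y ∈ D}.ncard : ℕ) : ℝ) / l ^ d) atTop
    (𝓝 ((volume D).toReal * ∏ p ∈ Z, ∑ x ∈ E p, dl (d + 1) p x))

/-- TL (150 lines): the tail of the sieve. Proof. If no coordinate of `z = co y` is zero and
`¬ Typ p (0, 0) z` then `p ^ 2 ∣ z_i` for some `i`, or `p ∣ z_i, z_j` for some `i ≠ j` (both also if
`p` divides all of them). All `|z_i| ≤ d R l`. The number of nonzero multiples of `g` in `[-B, B]` is
at most `2 B / g`, of all integers at most `3 B` (`B ≥ 1`). Some `d` of the `d + 1` coordinates,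
containing `i` (and `j`: `d ≥ 2`), determine `z`. So at most `C l ^ d / p ^ 2` vectors for each `p`,
and `∑_{p > P} 1 / p ^ 2 ≤ 1 / P`. -/
def S_TL : Prop := ∀ (d : ℕ), 2 ≤ d → ∀ R : ℝ, 1 ≤ R → ∃ C : ℝ, 0 < C ∧ ∀ P : ℕ, 1 ≤ P →
  ∀ l : ℝ, 1 ≤ l →
  {y : Fin d → ℤ | (∀ i, co y i ≠ 0) ∧ (∀ i, |((y i : ℤ) : ℝ)| ≤ R * l) ∧
    ∃ p : ℕ, p.Prime ∧ P < p ∧ ¬ Typ p (0, 0) (co y)}.Finite ∧
  (({y : Fin d → ℤ | (∀ i, co y i ≠ 0) ∧ (∀ i, |((y i : ℤ) : ℝ)| ≤ R * l) ∧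
    ∃ p : ℕ, p.Prime ∧ P < p ∧ ¬ Typ p (0, 0) (co y)}.ncard : ℕ) : ℝ) ≤ C * l ^ d / P

/-- PRD (80 lines, from DLP): convergence of the products. All but finitely many factors are in
`[1 - C / p ^ 2, 1]`; all are in `[0, 1]`. -/
def S_PRD : Prop := ∀ n : ℕ, 3 ≤ n → ∀ E : ℕ → Finset (ℕ × ℕ),
  (∃ N : ℕ, ∀ p : ℕ, N ≤ p → (0, 0) ∈ E p) →
  HasProd (fun p : Nat.Primes => ∑ x ∈ E p, dl n p x) (rhoE n E) ∧ 0 ≤ rhoE n E ∧
  Tendsto (fun N : ℕ => ∏ p ∈ N.primesBelow, ∑ x ∈ E p, dl n p x) atTop (𝓝 (rhoE n E)) ∧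
  ((∀ p : ℕ, p.Prime → 0 < ∑ x ∈ E p, dl n p x) → 0 < rhoE n E)

/-- ASY (150 lines, from ASZ, TL, PRD): all local conditions. Upper bound: ASZ for the primes below
`N`. Lower bound: subtract TL and the vectors with a zero coordinate (at most `C l ^ (d - 1)`). -/
def S_ASY : Prop := ∀ (d : ℕ), 2 ≤ d → ∀ E : ℕ → Finset (ℕ × ℕ),
  (∃ N : ℕ, ∀ p : ℕ, N ≤ p → (0, 0) ∈ E p) → ∀ D : Set (Fin d → ℝ), Jor D →
  Tendsto (fun l : ℝ => (({y : Fin d → ℤ | (∀ i, co y i ≠ 0) ∧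
    (∀ p : ℕ, p.Prime → ∃ x ∈ E p, Typ p x (co y)) ∧ sc l y ∈ D}.ncard : ℕ) : ℝ) / l ^ d) atTop
    (𝓝 ((volume D).toReal * rhoE (d + 1) E))

/-- REP (150 lines): the local conditions and the two parts. Orders at `p`: the one of `rep z` is
`∑ (a_i - 1)⁺`, the one of `sh z` is `(#{a_i > 0} - 1)⁺`. -/
def S_REP : Prop := ∀ (n : ℕ), 2 ≤ n → ∀ z : Fin n → ℤ, (∀ i, z i ≠ 0) →
  (∀ w s : ℕ, 1 ≤ w → 1 ≤ s → ((∀ p : ℕ, p.Prime → ∃ x ∈ E2 w s p, Typ p x z) ↔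
    (univ.gcd z = 1 ∧ rep z = w ∧ sh z = s))) ∧
  (∀ w : ℕ, 1 ≤ w → ((∀ p : ℕ, p.Prime → ∃ x ∈ E1 n w p, Typ p x z) ↔
    (univ.gcd z = 1 ∧ rep z = w))) ∧
  RR z * rep z = PP z ∧ rad (PP z) * sh z = RR z ∧ 1 ≤ rep z ∧ 1 ≤ sh z

/-- SHB (120 lines): few points have a large shared part. Proof. `sh z` divides the product of the
`gcd (z_i, z_j)`, `i < j` (prime by prime: `k - 1 ≤ k (k - 1) / 2`). So some `gcd (z_i, z_j) ≥ G`
where `G ^ ((d + 1) ^ 2) ≥ T`; at most `∑_{g ≥ G} C l ^ d / g ^ 2 ≤ 2 C l ^ d / G` vectors (see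
TL). -/
def S_SHB : Prop := ∀ (d : ℕ), 2 ≤ d → ∀ R : ℝ, 1 ≤ R → ∀ ε : ℝ, 0 < ε → ∃ T : ℕ,
  ∀ l : ℝ, 1 ≤ l →
  (({y : Fin d → ℤ | (∀ i, co y i ≠ 0) ∧ (∀ i, |((y i : ℤ) : ℝ)| ≤ R * l) ∧
    T < sh (co y)}.ncard : ℕ) : ℝ) ≤ ε * l ^ d

/-- TAIL (80 lines, from the starting files `Pool.Agent.Y594.NT.ThrFin`: `tot_upper`, `Thr`: `crude`,
`Near`: `near` with `a = 1 / (2 n)`, `W = T X ^ (1 / n)`): the points of large height. -/
def S_TAIL : Prop := ∀ (d : ℕ), 2 ≤ d → ∀ A : ℝ, 1 ≤ A → ∃ C ν : ℝ, 0 < C ∧ 0 < ν ∧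
  (∀ X : ℝ, 1 ≤ X → (PY d A X).Finite ∧ ((PY d A X).ncard : ℝ) ≤ C * X ^ gam (d + 1)) ∧
  ∀ X T : ℝ, 1 ≤ X → 1 ≤ T →
    (({y ∈ PY d A X | ∃ i, T * X ^ (1 / ((d : ℝ) + 1)) ≤ |((co y i : ℤ) : ℝ)|}.ncard : ℕ) : ℝ) ≤
      C * T ^ (-(1 / 2) : ℝ) * X ^ gam (d + 1) + C * X ^ (gam (d + 1) - ν)

/-- REG (100 lines): the truncated regions are Jordan measurable. The level sets `Φ = a` are zero sets
of the polynomials `∏ co u_i ∓ a`; `Pool.Agent.R320.PR.Pol` (`zero_null`: zero sets of nonzero real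
polynomials are null) may be imported. -/
def S_REG : Prop := ∀ (d : ℕ), 2 ≤ d → ∀ Q : Set (Fin d → ℝ), MeasurableSet Q →
  volume (frontier Q) = 0 → ∀ T a b : ℝ, 0 < a →
  Jor {u | u ∈ Q ∧ (∀ i, |u i| ≤ T) ∧ a ≤ Phi u ∧ Phi u ≤ b}

/-- SCL (60 lines): scaling (`Measure.addHaar_smul`, `Φ (t u) = t ^ (d + 1) Φ u`). -/
def S_SCL : Prop := ∀ (d : ℕ), 2 ≤ d → ∀ Q : Set (Fin d → ℝ), Cone Q → ∀ w : ℝ, 0 < w →
  volume {u | u ∈ Q ∧ Phi u ≤ w} = ENNReal.ofReal (w ^ gam (d + 1)) * volume (Q ∩ Un d)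

/-- BJ (200 lines): the beta integral over the line, `c(s) = 2 Γ(s) cos (π s / 2)`,
`c(s) c(1 - s) = 2 π`. Proof. Scaling (and `x ↦ -x`) reduces to `t = 1`; the integrals over
`(-∞, 0)`, `(0, 1)`, `(1, ∞)` are `B(a, 1 - a - b)`, `B(a, b)`, `B(b, 1 - a - b)` (substitutions
`x ↦ 1 / x` etc.); then the reflection formula. `ProbabilityTheory.beta` is the real beta function;
compare `Pool.Agent.Y911.JL.Beta`. -/
def S_BJ : Prop := ∀ a b : ℝ, 0 < a → 0 < b → a + b < 1 → ∀ t : ℝ, t ≠ 0 →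
  ∫⁻ x : ℝ, ENNReal.ofReal (|x| ^ (a - 1) * |t - x| ^ (b - 1)) =
    ENNReal.ofReal (|t| ^ (a + b - 1) * ((2 * Real.Gamma a * Real.cos (Real.pi * a / 2)) *
      (2 * Real.Gamma b * Real.cos (Real.pi * b / 2)) /
      (2 * Real.Gamma (a + b) * Real.cos (Real.pi * (a + b) / 2))))

/-- VOL (200 lines, from BJ): the volume. Proof. Put `u = (t x_1, …, t x_(d-1), t)`:
`Φ u = |t| ^ n φ(x)`, `φ(x) = |x_1 ⋯ x_(d-1) (1 + x_1 + ⋯ + x_(d-1))|`, so the volume is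
`∫ dx ∫_{|t| ^ n ≤ 1 / φ} |t| ^ (d - 1) dt = (2 / d) ∫ φ(x) ^ (1 / n - 1) dx`. By BJ and induction on
`k`, `∫ ∏_{i ≤ k} |x_i| ^ (a - 1) |t - ∑ x_i| ^ (a - 1) dx = |t| ^ ((k + 1) a - 1) c(a) ^ (k + 1) /
c((k + 1) a)` for `(k + 1) a < 1`; `a = 1 / n`, `k = d - 1`, `t = -1`, and
`c((n - 1) / n) = 2 π / c(1 / n)`. -/
def S_VOL : Prop := ∀ (d : ℕ), 2 ≤ d → volume (Un d) = ENNReal.ofReal
  ((2 * Real.Gamma (1 / ((d : ℝ) + 1)) * Real.cos (Real.pi / (2 * ((d : ℝ) + 1)))) ^ (d + 1) /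
    (Real.pi * d))

/-- LVL (150 lines): the level cones of the height. The frontier of `HC d c` lies in the zero sets of
the polynomials `c (co u_i) ^ n ∓ ∏ co u_j` (nonzero: for `c > 0` take a point where `∏ = 0` but
`co u_i ≠ 0`); `Pool.Agent.R320.PR.Pol` may be imported. The second claim: the complement contains a
neighbourhood of a point with one zero coordinate, near the origin. The third one: the sets increase
and their union contains `{Φ > 0}`, whose complement is null. -/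
def S_LVL : Prop := ∀ (d : ℕ), 2 ≤ d → (∀ c : ℝ, 0 < c → Cone (HC d c) ∧
    0 < volume ((HC d c)ᶜ ∩ Un d)) ∧
  Tendsto (fun k : ℕ => volume (HC d (1 / ((k : ℝ) + 1)) ∩ Un d)) atTop (𝓝 (volume (Un d)))

/-- EUL (200 lines, from DLP, PRD, EPF): the Euler product. Proof. `rho1 n w = rho1 n 1 · ∏_{p ∣ w}
D_p(v_p w) / D_p(0)` with `D_p(e) = ∑_f dl n p (e, f)`, `D_p(0) > 0`; so
`w ↦ w ^ gam · rho1 n w / rho1 n 1` is multiplicative and summable, and Mathlib's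
`EulerProduct.eulerProduct` applies; multiply by the product of the `D_p(0)`. -/
def S_EUL : Prop := ∀ n : ℕ, 3 ≤ n →
  Summable (fun w : ℕ => (w : ℝ) ^ gam n * rho1 n w) → 0 < rho1 n 1 ∧ 0 < rho2 n (1, 1) ∧
  Tendsto (fun N : ℕ => ∏ p ∈ N.primesBelow, EP n p) atTop
    (𝓝 (∑' w : ℕ, (w : ℝ) ^ gam n * rho1 n w))

/-- a datum `t` of the points which determines the repeated part `w`, with densities `ρ` -/
structure Dat (d : ℕ) (J : Type) (t : (Fin d → ℤ) → J) (w : J → ℕ) (ρ : J → ℝ) : Prop where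
  w1 : ∀ j, 1 ≤ w j
  rep : ∀ y, Pt (co y) → w (t y) = rep (co y)
  nn : ∀ j, 0 ≤ ρ j
  dens : ∀ j, ∀ D : Set (Fin d → ℝ), Jor D → Tendsto (fun l : ℝ =>
    (({y : Fin d → ℤ | Pt (co y) ∧ t y = j ∧ sc l y ∈ D}.ncard : ℕ) : ℝ) / l ^ d) atTop
    (𝓝 ((volume D).toReal * ρ j))
  tight : ∀ R : ℝ, 1 ≤ R → ∀ ε : ℝ, 0 < ε → ∃ F : Finset J, ∀ l : ℝ, 1 ≤ l →
    (({y : Fin d → ℤ | Pt (co y) ∧ (∀ i, |((y i : ℤ) : ℝ)| ≤ R * l) ∧ (P8H12.JN.rep (co y) : ℝ) ≤ R ∧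
      t y ∉ F}.ncard : ℕ) : ℝ) ≤ ε * l ^ d

/-- M1 (200 lines, from REG, REP): the truncated count. Proof. Put `l = X ^ (1 / (d + 1))`. For `y`
with `Pt (co y)` and `t y = j` one has `RR (co y) · w j = PP (co y) = l ^ (d + 1) Φ (y / l)` (REP and
`Dat.rep`), so `X / T ≤ RR ≤ X` is `w j / T ≤ Φ (y / l) ≤ w j`; `y ∈ Q j` iff `y / l ∈ Q j` (cone);
the height condition holds for large `X`, as `d T X ^ (1 / (d + 1)) ≤ X ^ A`. So the count is the sum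
over `j ∈ F` of the counts in `Dat.dens` with `D` as in REG. -/
def S_M1 : Prop := ∀ (d : ℕ), 2 ≤ d → ∀ (J : Type) (t : (Fin d → ℤ) → J) (w : J → ℕ) (ρ : J → ℝ),
  Dat d J t w ρ → ∀ A : ℝ, 1 / ((d : ℝ) + 1) < A → ∀ Q : J → Set (Fin d → ℝ), (∀ j, Cone (Q j)) →
  ∀ T : ℝ, 1 ≤ T → ∀ F : Finset J,
  Tendsto (fun X : ℝ => (({y ∈ PY d A X | t y ∈ F ∧ sc 1 y ∈ Q (t y) ∧
    (∀ i, |((y i : ℤ) : ℝ)| ≤ T * X ^ (1 / ((d : ℝ) + 1))) ∧ X / T ≤ (RR (co y) : ℝ)}.ncard : ℕ) :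
      ℝ) / X ^ gam (d + 1)) atTop
    (𝓝 (∑ j ∈ F, ρ j * (volume {u : Fin d → ℝ | u ∈ Q j ∧ (∀ i, |u i| ≤ T) ∧
      (w j : ℝ) / T ≤ Phi u ∧ Phi u ≤ w j}).toReal))

/-- M2 (150 lines, from TAIL, REP): the other points. Proof. They satisfy `|y_i| > T X ^ (1 / n)` for
some `i` (TAIL: at most `C T ^ (- 1 / 2) X ^ gam + o (X ^ gam)`), or `RR < X / T` (for `X ≥ T ^ 2` they
are in `PY d (2 A) (X / T)`: at most `C' (X / T) ^ gam` by TAIL for `2 A`), or neither and `t y ∉ F`: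
then `rep = PP / RR ≤ d T ^ (d + 2)`; `Dat.tight` with `R = d T ^ (d + 2)`, `l = X ^ (1 / n)`. -/
def S_M2 : Prop := ∀ (d : ℕ), 2 ≤ d → ∀ (J : Type) (t : (Fin d → ℤ) → J) (w : J → ℕ) (ρ : J → ℝ),
  Dat d J t w ρ → ∀ A : ℝ, 1 ≤ A → ∀ ε : ℝ, 0 < ε → ∃ T₀ : ℝ, 1 ≤ T₀ ∧ ∀ T : ℝ, T₀ ≤ T →
  ∃ (F : Finset J) (X₀ : ℝ), 1 ≤ X₀ ∧ ∀ X : ℝ, X₀ ≤ X →
    (({y ∈ PY d A X | ¬ (t y ∈ F ∧ (∀ i, |((y i : ℤ) : ℝ)| ≤ T * X ^ (1 / ((d : ℝ) + 1))) ∧
      X / T ≤ (RR (co y) : ℝ))}.ncard : ℕ) : ℝ) ≤ ε * X ^ gam (d + 1)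

/-- MAIN (250 lines, from M1, M2, SCL, TAIL): from densities in Jordan sets to the points ordered by
the product of the radicals. Proof. First `A ≥ 1`. The volumes in M1 increase with `T` to
`vol {u ∈ Q j, 0 < Φ u ≤ w j} = (w j) ^ gam vol (Q j ∩ Un d)` (SCL; the set `Φ = 0` is null). With all
`Q j = univ` the bound `C X ^ gam` of TAIL shows that all finite sums of `ρ j (w j) ^ gam vol (Un d)`
are at most `C`. The count is at least the one in M1 and at most the one in M1 plus `ε X ^ gam` for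
suitable `T`, `F` (M2), which may be taken large. For `1 / n < A < 1` use `A = 1` and TAIL with
`T = X ^ (A - 1 / n)`. -/
def S_MAIN : Prop := ∀ (d : ℕ), 2 ≤ d → volume (Un d) ≠ ⊤ → 0 < volume (Un d) →
  ∀ (J : Type) (t : (Fin d → ℤ) → J) (w : J → ℕ) (ρ : J → ℝ), Dat d J t w ρ →
  Summable (fun j => (w j : ℝ) ^ gam (d + 1) * ρ j) ∧
  ∀ A : ℝ, 1 / ((d : ℝ) + 1) < A → ∀ Q : J → Set (Fin d → ℝ), (∀ j, Cone (Q j)) →
    Tendsto (fun X : ℝ => (({y ∈ PY d A X | sc 1 y ∈ Q (t y)}.ncard : ℕ) : ℝ) /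
      X ^ gam (d + 1)) atTop
      (𝓝 (∑' j, (w j : ℝ) ^ gam (d + 1) * ρ j * (volume (Q j ∩ Un d)).toReal))

/-- DAT (100 lines, from ASY, REP, SHB, PRD): the two data. `w = max 1 (rep)`. Density: ASY with
`E1 (d + 1) j`, `E2 j.1 j.2` and REP; tightness: `F = Icc 0 ⌊R⌋`, and times `Icc 0 T` with `T` of
SHB. -/
def S_DAT : Prop := ∀ (d : ℕ), 2 ≤ d →
  Dat d ℕ (fun y => rep (co y)) (fun j => max 1 j) (fun j => rho1 (d + 1) j) ∧
  Dat d (ℕ × ℕ) (fun y => (rep (co y), sh (co y))) (fun j => max 1 j.1)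
    (fun j => rho2 (d + 1) j)

end Pool.Agent.P8H12.JN
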